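import Pool.Agent.W37.SG.Stm2

/-! Part SG-PAR of project SG (helper37, MP_9a3597_al): the parity lemma. -/

namespace Pool.Agent.W418.SG.Par

open Pool.Agent.W37.SG

variable {p α : ℕ} [Fact p.Prime] {V : Type} [AddCommGroup V] [Module ℚ_[p] V]
  {C : ℤ → AddSubgroup V} {𝒢 : Set (V →ₗ[ℚ_[p]] V)}

theorem le_add {a b : ℚ_[p]} (ha : ‖a‖ ≤ 1) (hb : ‖b‖ ≤ 1) : ‖a + b‖ ≤ 1 :=
  (Padic.nonarchimedean a b).trans (max_le ha hb)

theorem le_sub {a b : ℚ_[p]} (ha : ‖a‖ ≤ 1) (hb : ‖b‖ ≤ 1) : ‖a - b‖ ≤ 1 := by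
  rw [sub_eq_add_neg]
  exact le_add ha (by rwa [norm_neg])

theorem le_natmul {a : ℚ_[p]} (j : ℕ) (ha : ‖a‖ ≤ 1) : ‖(j : ℚ_[p]) * a‖ ≤ 1 := by
  rw [norm_mul]
  have h1 : ‖(j : ℚ_[p])‖ ≤ 1 := by
    have := Padic.norm_int_le_one (p := p) (j : ℤ)
    simpa using this
  calc ‖(j : ℚ_[p])‖ * ‖a‖ ≤ 1 * 1 := mul_le_mul h1 ha (norm_nonneg _) zero_le_one
    _ = 1 := one_mul 1

theorem pne : (p : ℚ_[p]) ≠ 0 := by
  have := (Fact.out : p.Prime).ne_zero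
  exact_mod_cast this

theorem anti' (h : ChainHyp p α V C 𝒢) {m n : ℤ} (hmn : m ≤ n) : C n ≤ C m :=
  antitone_int_of_succ_le h.anti hmn

theorem per1 (h : ChainHyp p α V C 𝒢) (n : ℤ) (x : V) :
    (p : ℚ_[p]) • x ∈ C (n + α) ↔ x ∈ C n := by
  constructor
  · intro hx
    obtain ⟨y, hy, hxy⟩ := (h.per n _).1 hx
    have : x = y := by
      have h2 := congrArg (fun v => (p : ℚ_[p])⁻¹ • v) hxy
      simpa [smul_smul, inv_mul_cancel₀ (pne (p := p))] using h2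
    rwa [this]
  · intro hx
    exact (h.per n _).2 ⟨x, hx, rfl⟩

theorem perZ (h : ChainHyp p α V C 𝒢) (k n : ℤ) (x : V) :
    (p : ℚ_[p]) ^ k • x ∈ C (n + k * α) ↔ x ∈ C n := by
  induction k using Int.induction_on with
  | zero => simp
  | succ i ih =>
    rw [← ih]
    have e1 : n + ((i : ℤ) + 1) * α = (n + (i : ℤ) * α) + α := by ring
    have e2 : (p : ℚ_[p]) ^ ((i : ℤ) + 1) • x = (p : ℚ_[p]) • ((p : ℚ_[p]) ^ (i : ℤ) • x) := by
      rw [smul_smul, zpow_add_one₀ pne, mul_comm]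
    rw [e1, e2, per1 h]
  | pred i ih =>
    rw [← ih]
    have e1 : n + (-(i : ℤ)) * α = (n + (-(i : ℤ) - 1) * α) + α := by ring
    have e2 : (p : ℚ_[p]) ^ (-(i : ℤ)) • x = (p : ℚ_[p]) • ((p : ℚ_[p]) ^ (-(i : ℤ) - 1) • x) := by
      rw [smul_smul, zpow_sub_one₀ pne, mul_comm, mul_assoc, inv_mul_cancel₀ pne, mul_one]
    rw [e1, e2, per1 h]

theorem mem0 (h : ChainHyp p α V C 𝒢) (x : V) : ∃ k : ℤ, x ∈ C k := by
  obtain ⟨b, hb⟩ := h.basis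
  have hp1 : (1 : ℝ) < p := by exact_mod_cast (Fact.out : p.Prime).one_lt
  obtain ⟨N, hN⟩ := pow_unbounded_of_one_lt (∑ i, ‖b.repr x i‖) hp1
  refine ⟨-(N : ℤ) * α, ?_⟩
  rw [← perZ h (N : ℤ) (-(N : ℤ) * α) x]
  have e : -(N : ℤ) * α + (N : ℤ) * α = 0 := by ring
  rw [e, hb]
  intro i
  have h1 : ‖b.repr x i‖ ≤ (p : ℝ) ^ N :=
    (Finset.single_le_sum (f := fun i => ‖b.repr x i‖) (fun _ _ => norm_nonneg _)
      (Finset.mem_univ i)).trans hN.le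
  rw [map_smul, Finsupp.smul_apply, smul_eq_mul, norm_mul, Padic.norm_p_zpow]
  rw [zpow_neg, zpow_natCast, inv_mul_le_iff₀ (by positivity), mul_one]
  exact h1

theorem bdd (h : ChainHyp p α V C 𝒢) (K : V →ₗ[ℚ_[p]] V →ₗ[ℚ_[p]] ℚ_[p]) :
    ∃ N : ℕ, ∀ x ∈ C 0, ∀ y ∈ C 0, ‖K x y‖ ≤ (p : ℝ) ^ N := by
  obtain ⟨b, hb⟩ := h.basis
  have hp1 : (1 : ℝ) < p := by exact_mod_cast (Fact.out : p.Prime).one_lt
  obtain ⟨N, hN⟩ := pow_unbounded_of_one_lt (∑ i, ∑ j, ‖K (b i) (b j)‖) hp1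
  refine ⟨N, fun x hx y hy => ?_⟩
  have hx' := (hb x).1 hx
  have hy' := (hb y).1 hy
  have e : K x y = ∑ i, ∑ j, b.repr x i * (b.repr y j * K (b i) (b j)) := by
    conv_lhs => rw [← b.sum_repr x, ← b.sum_repr y]
    simp only [map_sum, map_smul, LinearMap.sum_apply, LinearMap.smul_apply, smul_eq_mul,
      Finset.mul_sum]
    rw [Finset.sum_comm]
    refine Finset.sum_congr rfl fun i _ => Finset.sum_congr rfl fun j _ => ?_
    ring
  rw [e]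
  refine (norm_sum_le _ _).trans ((Finset.sum_le_sum fun i _ => ?_).trans hN.le)
  refine (norm_sum_le _ _).trans (Finset.sum_le_sum fun j _ => ?_)
  rw [norm_mul, norm_mul]
  calc ‖b.repr x i‖ * (‖b.repr y j‖ * ‖K (b i) (b j)‖)
      ≤ 1 * (1 * ‖K (b i) (b j)‖) := by
        refine mul_le_mul (hx' i) ?_ (by positivity) zero_le_one
        exact mul_le_mul_of_nonneg_right (hy' j) (norm_nonneg _)
    _ = ‖K (b i) (b j)‖ := by ring

/-- integrality of `K` on the pairs of level at least `c` -/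
def PP (C : ℤ → AddSubgroup V) (K : V →ₗ[ℚ_[p]] V →ₗ[ℚ_[p]] ℚ_[p]) (c : ℤ) : Prop :=
  ∀ a b : ℤ, c ≤ a + b → ∀ x ∈ C a, ∀ y ∈ C b, ‖K x y‖ ≤ 1

theorem exP (h : ChainHyp p α V C 𝒢) (hα : 1 ≤ α) (K : V →ₗ[ℚ_[p]] V →ₗ[ℚ_[p]] ℚ_[p]) :
    ∃ c, PP C K c := by
  obtain ⟨N, hN⟩ := bdd h K
  refine ⟨((N : ℤ) + 1) * α, fun a b hab x hx y hy => ?_⟩
  have hα' : (0 : ℤ) < α := by exact_mod_cast hα
  set k : ℤ := a / α with hk
  have h1 : k * α ≤ a := by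
    rw [hk]; exact Int.ediv_mul_le a hα'.ne'
  have h2 : a < (k + 1) * α := by
    rw [hk]; exact Int.lt_ediv_add_one_mul_self a hα'
  have hx0 : x ∈ C (0 + k * α) := anti' h (by linarith) hx
  have hy0 : y ∈ C (0 + ((N : ℤ) - k) * α) := by
    refine anti' h ?_ hy
    nlinarith
  obtain ⟨x1, hx1⟩ : ∃ x1, x = (p : ℚ_[p]) ^ k • x1 :=
    ⟨(p : ℚ_[p]) ^ (-k) • x, by
      rw [smul_smul, ← zpow_add₀ pne, add_neg_cancel, zpow_zero, one_smul]⟩
  obtain ⟨y1, hy1⟩ : ∃ y1, y = (p : ℚ_[p]) ^ ((N : ℤ) - k) • y1 :=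
    ⟨(p : ℚ_[p]) ^ (-((N : ℤ) - k)) • y, by
      rw [smul_smul, ← zpow_add₀ pne, add_neg_cancel, zpow_zero, one_smul]⟩
  subst hx1 hy1
  have hb := hN _ ((perZ h k 0 _).1 hx0) _ ((perZ h ((N : ℤ) - k) 0 _).1 hy0)
  have e : K ((p : ℚ_[p]) ^ k • x1) ((p : ℚ_[p]) ^ ((N : ℤ) - k) • y1) =
      (p : ℚ_[p]) ^ (N : ℤ) * K x1 y1 := by
    rw [map_smul, map_smul, LinearMap.smul_apply, smul_eq_mul, smul_eq_mul, ← mul_assoc,
      ← zpow_add₀ pne]
    congr 2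
    ring
  rw [e, norm_mul, Padic.norm_p_zpow, zpow_neg, zpow_natCast, inv_mul_le_iff₀ (by
    have := (Fact.out : p.Prime).pos
    positivity), mul_one]
  exact hb

theorem exNP (h : ChainHyp p α V C 𝒢) (hα : 1 ≤ α) (K : V →ₗ[ℚ_[p]] V →ₗ[ℚ_[p]] ℚ_[p])
    (hnd : ∀ x, (∀ y, K x y = 0) → x = 0) : ∃ c, ¬ PP C K c := by
  obtain ⟨b, hb⟩ := h.basis
  obtain ⟨y, hy⟩ : ∃ y, K (b ⟨0, hα⟩) y ≠ 0 := by
    by_contra hcon
    push Not at hcon
    exact b.ne_zero ⟨0, hα⟩ (hnd _ hcon)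
  set x := b ⟨0, hα⟩
  obtain ⟨k1, hk1⟩ := mem0 h x
  obtain ⟨k2, hk2⟩ := mem0 h y
  have hp1 : (1 : ℝ) < p := by exact_mod_cast (Fact.out : p.Prime).one_lt
  obtain ⟨j, hj⟩ := pow_unbounded_of_one_lt (‖K x y‖⁻¹) hp1
  refine ⟨k1 + (-(j : ℤ)) * α + k2, fun hP => ?_⟩
  have hx1 := (perZ h (-(j : ℤ)) k1 x).2 hk1
  have := hP _ _ le_rfl _ hx1 _ hk2
  rw [map_smul, LinearMap.smul_apply, smul_eq_mul, norm_mul, Padic.norm_p_zpow, neg_neg,
    zpow_natCast] at this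
  have hpos : 0 < ‖K x y‖ := norm_pos_iff.2 hy
  have h3 : 1 < (p : ℝ) ^ j * ‖K x y‖ := by
    rw [← inv_mul_cancel₀ hpos.ne']
    exact mul_lt_mul_of_pos_right hj hpos
  linarith

theorem main : S_PAR := by
  intro p α _ V _ _ C 𝒢 hp2 hα h K hsym hinv hnd
  have hα1 : 1 ≤ α := hα.pos
  -- the least level
  obtain ⟨c, hc, hmin⟩ : ∃ c, PP C K c ∧ ∀ z, PP C K z → c ≤ z := by
    refine Int.exists_least_of_bdd ?_ (exP h hα1 K)
    obtain ⟨c0, hc0⟩ := exNP h hα1 K hnd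
    refine ⟨c0, fun z hz => ?_⟩
    by_contra hlt
    push Not at hlt
    exact hc0 fun a b hab x hx y hy => hz a b (by omega) x hx y hy
  -- the relation `R a`: the pairing of the pieces `a` and `c - 1 - a` is not zero
  let R : ℤ → Prop := fun a => ∃ x ∈ C a, ∃ y ∈ C (c - 1 - a), ¬ ‖K x y‖ ≤ 1
  have hR0 : ∃ a, R a := by
    have h1 : ¬ PP C K (c - 1) := fun hP => by
      have := hmin _ hP
      omega
    unfold PP at h1
    push Not at h1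
    obtain ⟨a, b, hab, x, hx, y, hy, hxy⟩ := h1
    refine ⟨a, x, hx, y, ?_, not_le.2 hxy⟩
    rcases eq_or_lt_of_le hab with he | hlt
    · rw [he, add_sub_cancel_left]; exact hy
    · exact absurd (hc a b (by omega) x hx y hy) (not_le.2 hxy)
  have hA : ∀ a, R a → ∀ x ∈ C a, x ∉ C (a + 1) → ∀ y ∈ C (c - 1 - a), y ∉ C (c - 1 - a + 1) →
      ¬ ‖K x y‖ ≤ 1 := by
    rintro a ⟨x', hx', y', hy', hn⟩ x hx hx1 y hy hy1 hle
    obtain ⟨j, hj⟩ := h.step a x hx hx1 x' hx'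
    obtain ⟨i, hi⟩ := h.step (c - 1 - a) y hy hy1 y' hy'
    apply hn
    have e : K x' y' = K (x' - j • x) y' + ((j : ℚ_[p]) * K x (y' - i • y) +
        (j : ℚ_[p]) * ((i : ℚ_[p]) * K x y)) := by
      simp only [map_sub, LinearMap.sub_apply, map_nsmul, LinearMap.smul_apply, nsmul_eq_mul]
      ring
    rw [e]
    refine le_add (hc _ _ (by omega) _ hj _ hy') (le_add (le_natmul j ?_)
      (le_natmul j (le_natmul i hle)))
    exact hc _ _ (by omega) _ hx _ hi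
  have hB : ∀ a, R a → R (a + 1) := by
    intro a ha
    obtain ⟨y, hy, hy1⟩ := h.ne (c - 1 - (a + 1))
    obtain ⟨g, hg, hgy⟩ := h.uni _ y hy hy1
    obtain ⟨x, hx, hx1⟩ := h.ne a
    obtain ⟨g', hg', hgg⟩ := h.inv g hg
    have hgy0 := h.nil g hg _ y hy
    have e1 : c - 1 - (a + 1) + 1 = c - 1 - a := by ring
    have e2 : c - 1 - (a + 1) + 2 = c - 1 - a + 1 := by ring
    rw [e1] at hgy0
    rw [e2] at hgy
    have hh := hA a ha x hx hx1 _ hgy0 hgy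
    refine ⟨g' x - x, h.nil g' hg' a x hx, y, hy, ?_⟩
    have e3 : g (g' x) = x := by
      have := LinearMap.congr_fun hgg x
      simpa using this
    have e4 : K (g' x - x) y = K x (g y - y) := by
      rw [map_sub, LinearMap.sub_apply, ← hinv g hg (g' x) y, e3, map_sub]
    rw [e4]
    exact hh
  have hS : ∀ a, R a → R (c - 1 - a) := by
    rintro a ⟨x, hx, y, hy, hn⟩
    refine ⟨y, hy, x, ?_, by rwa [hsym]⟩
    rw [sub_sub_cancel]; exact hx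
  have hup : ∀ a, R a → ∀ n : ℕ, R (a + n) := by
    intro a ha n
    induction n with
    | zero => simpa using ha
    | succ n ih =>
      have := hB _ ih
      have e : a + (n : ℤ) + 1 = a + ((n + 1 : ℕ) : ℤ) := by push_cast; ring
      rwa [e] at this
  have hall : ∀ a, R a := by
    obtain ⟨a0, ha0⟩ := hR0
    intro a
    rcases le_total a0 a with hle | hle
    · have := hup a0 ha0 (a - a0).toNat
      have e : a0 + ((a - a0).toNat : ℤ) = a := by omega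
      rwa [e] at this
    · have h1 := hup _ (hS a0 ha0) (a0 - a).toNat
      have e : c - 1 - a0 + ((a0 - a).toNat : ℤ) = c - 1 - a := by omega
      rw [e] at h1
      have h2 := hS _ h1
      rwa [sub_sub_cancel] at h2
  -- parity
  obtain ⟨t, m, htm⟩ : ∃ t m : ℤ, 2 * m + 2 + t * α = c := by
    obtain ⟨r, hr⟩ := hα
    rcases Int.even_or_odd c with ⟨d, hd⟩ | ⟨d, hd⟩
    · exact ⟨0, d - 1, by rw [hd]; ring⟩
    · refine ⟨1, d - 1 - r, ?_⟩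
      rw [hd, hr]; push_cast; ring
  obtain ⟨x, hx, hx1⟩ := h.ne m
  obtain ⟨g, hg, hgx⟩ := h.uni m x hx hx1
  have hd := h.nil g hg m x hx
  set δ := g x - x with hδ
  have hPδ : (p : ℚ_[p]) ^ t • δ ∈ C (c - 1 - m) := by
    have := (perZ h t (m + 1) δ).2 hd
    have e : m + 1 + t * α = c - 1 - m := by rw [← htm]; ring
    rwa [e] at this
  have hPδ1 : (p : ℚ_[p]) ^ t • δ ∉ C (c - 1 - m + 1) := by
    intro hcon
    apply hgx
    have e : c - 1 - m + 1 = (m + 2) + t * α := by rw [← htm]; ring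
    rw [e] at hcon
    exact (perZ h t (m + 2) δ).1 hcon
  have hbig := hA m (hall m) x hx hx1 _ hPδ hPδ1
  have hsmall : ‖K δ ((p : ℚ_[p]) ^ t • δ)‖ ≤ 1 :=
    hc (m + 1) (c - 1 - m) (by omega) δ hd _ hPδ
  have hgg := hinv g hg x x
  have e5 : g x = x + δ := by rw [hδ]; abel
  have e6 : (2 : ℚ_[p]) * K x δ = - K δ δ := by
    rw [e5] at hgg
    simp only [map_add, LinearMap.add_apply] at hgg
    rw [hsym δ x] at hgg
    linear_combination hgg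
  apply hbig
  have h2 : ‖(2 : ℚ_[p])‖ = 1 := by
    have := (Padic.norm_natCast_eq_one_iff (p := p) (n := 2)).2
      ((Nat.coprime_primes (Fact.out : p.Prime) Nat.prime_two).2 hp2)
    simpa using this
  have e7 : (2 : ℚ_[p]) * K x ((p : ℚ_[p]) ^ t • δ) = - K δ ((p : ℚ_[p]) ^ t • δ) := by
    rw [map_smul, map_smul, smul_eq_mul, smul_eq_mul]
    linear_combination (p : ℚ_[p]) ^ t * e6
  have e8 : ‖K x ((p : ℚ_[p]) ^ t • δ)‖ = ‖K δ ((p : ℚ_[p]) ^ t • δ)‖ := by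
    have := congrArg norm e7
    rwa [norm_mul, h2, one_mul, norm_neg] at this
  rw [e8]
  exact hsmall

end Pool.Agent.W418.SG.Par
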